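import Pool.Agent.R597.SP

/-!
# Strongly proper forcing does not preserve winning strategies of player II in the Menger game

The counterexample is Cohen forcing and the Cantor space `2^ω` of the ground model. The space is
compact in the ground model, so that player II has a trivial winning strategy there. In the
extension by a Cohen real `c` let `z_u` be the sequence `c` with its initial part replaced by the
finite sequence `u`. The complements in `X = 2^ω ∩ M` of the basic neighbourhoods of `z_u` form an
open cover `U_u` of `X`; finitely many members of it miss a neighbourhood of `z_u`. Given a
strategy of player II, consider the plays in which player I plays such covers. As `X` is not meager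
in the extension, there is `x ∈ X` such that after each position player I can choose `u` so that the
answer of player II does not cover `x`. So the strategy is not winning.
-/

set_option autoImplicit false

namespace Pool.Agent.Results.MP_18f314_lc.MengerNotPreserved

open Pool.Agent.W868 Pool.Agent.W868.GM Pool.Agent.R597 Pool.Agent.Y588

/-- In every transitive model `M` of ZFC there are a notion of forcing that is strongly proper for
stationarily many models and a topological space on which player II has a winning strategy in the
Menger game, such that player II has no winning strategy in any generic extension. -/
theorem result (M : Set ZFSet.{0}) (hM : IsZFC M) :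
    ∃ P Le X τ : ZFSet.{0}, IsForcing M P Le ∧ StrProper M P Le ∧ IsTop M X τ ∧
      MengerII M X τ ∧ (M.Countable → ∃ G, IsGeneric M P Le G) ∧
      ∀ G, IsGeneric M P Le G → ¬ MengerII (ext M G) X τ := by
  obtain ⟨h1, h2, h3, h4⟩ := cohen_facts hM
  exact ⟨Pc, Lc, fnX M (nat 2), Tc M, h1, h2, h3, menger_ground hM, h4,
    fun G hG => not_menger hM hG⟩

end Pool.Agent.Results.MP_18f314_lc.MengerNotPreserved
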